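import Pool.Agent.H98.PW.Fin

set_option autoImplicit false

namespace Pool.Agent.Results.MP_05f553_nt.FewExponents

/-- the product `R` of the primes dividing `a b (a + b)`, for `t = (a, b)` -/
def R (t : ℕ × ℕ) : ℕ := ∏ p ∈ (t.1 * t.2 * (t.1 + t.2)).primeFactors, p

/-- the exponents `> E` of the primes dividing `a b (a + b)` but not `r` -/
def exps (E r : ℕ) (t : ℕ × ℕ) : Finset ℕ :=
  ((t.1 * t.2 * (t.1 + t.2)).primeFactors.filter (fun p =>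
    ¬ p ∣ r ∧ E < (t.1 * t.2 * (t.1 + t.2)).factorization p)).image
      (t.1 * t.2 * (t.1 + t.2)).factorization

/-- the products of `N` powers of integers at most `X` -/
def PP (N : ℕ) (X : ℝ) : Set ℕ :=
  {a | ∃ x e : Fin N → ℕ, (∀ k, 1 ≤ x k ∧ (x k : ℝ) ≤ X) ∧ a = ∏ k, x k ^ e k}

/-- the pairs of coprime positive integers with `X ^ K ≤ a + b ≤ exp (X ^ η)` -/
def Mid (K η X : ℝ) : Set (ℕ × ℕ) :=
  {t | 0 < t.1 ∧ 0 < t.2 ∧ Nat.Coprime t.1 t.2 ∧ X ^ K ≤ ((t.1 + t.2 : ℕ) : ℝ) ∧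
    Real.log ((t.1 + t.2 : ℕ) : ℝ) ≤ X ^ η}

/-- (1) For all `N` and `ε > 0` there are `K, η, C` such that for all `X ≥ 1` and all `u, v, w` there
are at most `C X ^ ε` coprime pairs with `X ^ K ≤ a + b ≤ exp (X ^ η)`, `a ∈ u PP`, `b ∈ v PP`,
`a + b ∈ w PP`, `PP` the set of the products of `N` powers of integers `≤ X`.
(2) For all `N, E` and `ε > 0` there are `K, η, C` such that for all `X, Y ≥ 1` there are at most
`C Y X ^ ε` such pairs with `R ≤ X` whose radical has a divisor `r ≤ Y` (with `k` prime factors,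
`k log (2 + log (a + b) / k) ≤ η log X`) such that the primes not dividing `r` have at most `N`
different exponents `> E`. -/
theorem result :
    (∀ (N : ℕ) (ε : ℝ), 0 < ε → ∃ K η C : ℝ, 1 ≤ K ∧ 0 < η ∧ 1 ≤ C ∧
      ∀ (X : ℝ) (u v w : ℕ), 1 ≤ X →
        {t : ℕ × ℕ | t ∈ Mid K η X ∧ (∃ a ∈ PP N X, t.1 = u * a) ∧ (∃ b ∈ PP N X, t.2 = v * b) ∧
          ∃ c ∈ PP N X, t.1 + t.2 = w * c}.Finite ∧
        ({t : ℕ × ℕ | t ∈ Mid K η X ∧ (∃ a ∈ PP N X, t.1 = u * a) ∧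
          (∃ b ∈ PP N X, t.2 = v * b) ∧ ∃ c ∈ PP N X, t.1 + t.2 = w * c}.ncard : ℝ) ≤
            C * X ^ ε) ∧
    ∀ (N E : ℕ) (ε : ℝ), 0 < ε → ∃ K η C : ℝ, 1 ≤ K ∧ 0 < η ∧ 1 ≤ C ∧
      ∀ X Y : ℝ, 1 ≤ X → 1 ≤ Y →
        {t : ℕ × ℕ | t ∈ Mid K η X ∧ (R t : ℝ) ≤ X ∧ ∃ r : ℕ, r ∣ R t ∧ (r : ℝ) ≤ Y ∧
          (exps E r t).card ≤ N ∧ (r.primeFactors.card : ℝ) *
            Real.log (2 + Real.log ((t.1 + t.2 : ℕ) : ℝ) / r.primeFactors.card) ≤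
              η * Real.log X}.Finite ∧
        ({t : ℕ × ℕ | t ∈ Mid K η X ∧ (R t : ℝ) ≤ X ∧ ∃ r : ℕ, r ∣ R t ∧ (r : ℝ) ≤ Y ∧
          (exps E r t).card ≤ N ∧ (r.primeFactors.card : ℝ) *
            Real.log (2 + Real.log ((t.1 + t.2 : ℕ) : ℝ) / r.primeFactors.card) ≤
              η * Real.log X}.ncard : ℝ) ≤ C * Y * X ^ ε :=
  ⟨Pool.PW.fin_A Pool.PW.all_PWR, Pool.PW.fin_B (Pool.PW.pwf_thm Pool.PW.all_PWR)⟩

end Pool.Agent.Results.MP_05f553_nt.FewExponents
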