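import Mathlib
import Pool.Agent.H81.PHL.Exact

set_option autoImplicit false

namespace Pool.Agent.Results.MP_05f553_nt.ParameterRange

open Pool.Agent.H81.PHL (Holds AbcExp gap)

/-- Strength and exact range of Philippon's inequality `Holds B α β ε` (for all nonzero rationals
`x, y` with `x y^B ≠ 1, -1`); `gap B α ε x y` is `L - α B h(x) - ε B h(y)`, `L` the left side;
`AbcExp κ` is abc with exponent `κ`.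

(1) Q1 with its own ranges, Q1 with `α ≥ 0`, `ε < 1`, abc with some exponent, and Q1 for all
`α, ε > 0`, all large `B` and all `β ≥ 0` are equivalent.

(2) Unconditionally, if `α ≥ 0`, `0 ≤ ε < 1` and `B ≤ 2` or `α (B - 2) + ε ≤ 2 - 2 / B`, then
`Holds B α β ε` fails for every `β`; moreover `L - α B h(x) - ε B h(y)` is unbounded already on the
pairs whose set `S` is inside the set of primes dividing `D`, where `D` depends on `B` only.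

(3) If abc holds with an exponent `κ ≥ 1`, then `Holds B α β ε` for some `β` whenever `0 ≤ ε ≤ 1`,
`B > 2 κ` and `(1 - ε) B (2 κ - 1) ≤ (α B - 1) (B - 2 κ)`.

(4) If abc holds (with every exponent `κ > 1`), then the range in (2) is exact: for `α ≥ 0`,
`0 ≤ ε < 1`, some `β` has `Holds B α β ε` iff `B ≥ 3` and `α (B - 2) + ε > 2 - 2 / B`. In the range
of Q1 (`α ≥ 1`, `0 < ε < 1/2`): iff `B ≥ 4`, or `B = 3` and `α + ε > 4/3`. -/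
theorem result :
    List.TFAE [
      (∃ B : ℕ, 0 < B ∧ ∃ α β ε : ℝ, 0 ≤ α ∧ 0 ≤ β ∧ 0 ≤ ε ∧ ε < 1 ∧ Holds B α β ε),
      (∃ B : ℕ, 0 < B ∧ ∃ α β ε : ℝ, 1 ≤ α ∧ 0 ≤ β ∧ 0 < ε ∧ ε < 1 / 2 ∧ Holds B α β ε),
      (∃ κ : ℝ, AbcExp κ),
      (∀ α ε : ℝ, 0 < α → 0 < ε →
        ∃ B₀ : ℕ, ∀ B : ℕ, B₀ ≤ B → ∀ β : ℝ, 0 ≤ β → Holds B α β ε)] ∧
    (∀ B : ℕ, 0 < B → ∃ D : ℕ, 0 < D ∧ ∀ α ε : ℝ, 0 ≤ α → 0 ≤ ε → ε < 1 →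
      (B ≤ 2 ∨ α * (B - 2) + ε ≤ 2 - 2 / B) →
        (∀ M : ℝ, ∃ x y : ℚ, x ≠ 0 ∧ y ≠ 0 ∧ x * y ^ B ≠ 1 ∧ x * y ^ B ≠ -1 ∧
          (∀ p : ℕ, p.Prime → p ∣ (x * y ^ B + 1).num.natAbs → p ∣ D) ∧ M < gap B α ε x y) ∧
        ∀ β : ℝ, ¬ Holds B α β ε) ∧
    (∀ κ : ℝ, 1 ≤ κ → AbcExp κ → ∀ (B : ℕ) (α ε : ℝ), 0 ≤ ε → ε ≤ 1 → 2 * κ < B →
      (1 - ε) * B * (2 * κ - 1) ≤ (α * B - 1) * (B - 2 * κ) → ∃ β : ℝ, 0 ≤ β ∧ Holds B α β ε) ∧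
    ((∀ κ : ℝ, 1 < κ → AbcExp κ) → ∀ (B : ℕ) (α ε : ℝ), 0 < B →
      (0 ≤ α → 0 ≤ ε → ε < 1 →
        ((∃ β : ℝ, 0 ≤ β ∧ Holds B α β ε) ↔ 3 ≤ B ∧ 2 - 2 / B < α * (B - 2) + ε)) ∧
      (1 ≤ α → 0 < ε → ε < 1 / 2 →
        ((∃ β : ℝ, 0 ≤ β ∧ Holds B α β ε) ↔ 4 ≤ B ∨ B = 3 ∧ 4 / 3 < α + ε))) :=
  ⟨Pool.Agent.H81.PHL.equivalences,
    fun B hB => by
      obtain ⟨D, hD, h⟩ := Pool.Agent.H81.PHL.gap_all B hB
      exact ⟨D, hD, fun α ε hα hε hε1 hle =>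
        ⟨h α ε hα hε hε1 hle, Pool.Agent.H81.PHL.not_holds_of_le B α ε hB hα hε hε1 hle⟩⟩,
    fun _ hκ habc _ _ _ hε hε1 hB hpar =>
      Pool.Agent.H81.PHL.holds_of_abc hκ habc hε hε1 hB hpar,
    fun habc B α ε hB =>
      ⟨fun hα hε hε1 => Pool.Agent.H81.PHL.holds_iff habc B hB α ε hα hε hε1,
        fun hα hε hε1 => Pool.Agent.H81.PHL.holds_iff_Q1 habc B hB α ε hα hε hε1⟩⟩

end Pool.Agent.Results.MP_05f553_nt.ParameterRange
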